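import Mathlib

/-!
# Bounded numerical ranges of quaternion matrices for nonstandard involutions
-/

open Quaternion

namespace Pool.Agent.Results.MP_dceaed_al.BoundedRanges

/-- The real quaternions. -/
abbrev H : Type := Quaternion ℝ

/-- `φ` is a nonstandard involution of the quaternions: a real-linear map with
`φ (x y) = φ y φ x` and `φ (φ x) = x`, different from the quaternion conjugation. -/
def IsNonstandard (φ : H →ₗ[ℝ] H) : Prop :=
  (∀ x y, φ (x * y) = φ y * φ x) ∧ (∀ x, φ (φ x) = x) ∧ ∃ x, φ x ≠ star x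

/-- The expression `x_φ A y`. -/
noncomputable def bil (φ : H →ₗ[ℝ] H) {n : ℕ} (A : Matrix (Fin n) (Fin n) H)
    (x y : Fin n → H) : H :=
  ∑ k, ∑ l, φ (x k) * A k l * y l

/-- The expression `x_φ x`. -/
noncomputable def sq (φ : H →ₗ[ℝ] H) {n : ℕ} (x : Fin n → H) : H := ∑ k, φ (x k) * x k

/-- The `φ`-numerical range `{x_φ A x : x_φ x = α}`. -/
def W (φ : H →ₗ[ℝ] H) (α : H) {n : ℕ} (A : Matrix (Fin n) (Fin n) H) : Set H :=
  {w | ∃ x : Fin n → H, sq φ x = α ∧ w = bil φ A x x}

section quaternion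

theorem sq_neg_one {p : H} (h : p * p = -1) : p.re = 0 ∧
    p.imI ^ 2 + p.imJ ^ 2 + p.imK ^ 2 = 1 := by
  have h0 := congrArg QuaternionAlgebra.re h
  have h1 := congrArg QuaternionAlgebra.imI h
  have h2 := congrArg QuaternionAlgebra.imJ h
  have h3 := congrArg QuaternionAlgebra.imK h
  simp at h0 h1 h2 h3
  have hre : p.re = 0 := by
    by_contra hne
    have e1 : p.imI = 0 := by
      have : 2 * p.re * p.imI = 0 := by linarith
      rcases mul_eq_zero.1 this with h | h
      · exact absurd (by linarith) hne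
      · exact h
    have e2 : p.imJ = 0 := by
      have : 2 * p.re * p.imJ = 0 := by linarith
      rcases mul_eq_zero.1 this with h | h
      · exact absurd (by linarith) hne
      · exact h
    have e3 : p.imK = 0 := by
      have : 2 * p.re * p.imK = 0 := by linarith
      rcases mul_eq_zero.1 this with h | h
      · exact absurd (by linarith) hne
      · exact h
    rw [e1, e2, e3] at h0
    nlinarith [mul_self_nonneg p.re]
  refine ⟨hre, ?_⟩
  rw [hre] at h0
  nlinarith

theorem pure_mul_self {v : H} (hv : v.re = 0) :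
    v * v = ((-(v.imI ^ 2 + v.imJ ^ 2 + v.imK ^ 2) : ℝ) : H) := by
  ext
  · rw [Quaternion.re_mul, Quaternion.re_coe, hv]; ring
  · rw [Quaternion.imI_mul, Quaternion.imI_coe, hv]; ring
  · rw [Quaternion.imJ_mul, Quaternion.imJ_coe, hv]; ring
  · rw [Quaternion.imK_mul, Quaternion.imK_coe, hv]; ring

/-- A nonzero pure quaternion can be normalised. -/
theorem normalise {v : H} (hv : v.re = 0) (hv0 : v ≠ 0) :
    ∃ r : ℝ, (r • v) * (r • v) = -1 := by
  have hpos : 0 < v.imI ^ 2 + v.imJ ^ 2 + v.imK ^ 2 := by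
    by_contra hle
    apply hv0
    have h1 := sq_nonneg v.imI
    have h2 := sq_nonneg v.imJ
    have h3 := sq_nonneg v.imK
    ext
    · exact hv
    · exact pow_eq_zero_iff (two_ne_zero) |>.1 (by linarith)
    · exact pow_eq_zero_iff (two_ne_zero) |>.1 (by linarith)
    · exact pow_eq_zero_iff (two_ne_zero) |>.1 (by linarith)
  refine ⟨(Real.sqrt (v.imI ^ 2 + v.imJ ^ 2 + v.imK ^ 2))⁻¹, ?_⟩
  rw [smul_mul_smul_comm, pure_mul_self hv, ← mul_inv, Real.mul_self_sqrt hpos.le]
  rw [Quaternion.smul_coe]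
  rw [mul_neg, inv_mul_cancel₀ hpos.ne']
  simp

theorem comm_rep {q y : H} (hq : q * q = -1) (hy : y * q = q * y) :
    ∃ s t : ℝ, y = (s : H) + t • q := by
  obtain ⟨hq0, hq1⟩ := sq_neg_one hq
  have h1 := congrArg QuaternionAlgebra.imI hy
  have h2 := congrArg QuaternionAlgebra.imJ hy
  have h3 := congrArg QuaternionAlgebra.imK hy
  simp [hq0] at h1 h2 h3
  refine ⟨y.re, y.imI * q.imI + y.imJ * q.imJ + y.imK * q.imK, ?_⟩
  ext
  · simp [hq0]
  · simp
    linear_combination (-y.imI) * hq1 + (1 / 2) * q.imJ * h3 - (1 / 2) * q.imK * h2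
  · simp
    linear_combination (-y.imJ) * hq1 + (1 / 2) * q.imK * h1 - (1 / 2) * q.imI * h3
  · simp
    linear_combination (-y.imK) * hq1 + (1 / 2) * q.imI * h2 - (1 / 2) * q.imJ * h1

theorem normSq_identity {q : H} (hq : q * q = -1) (a b : H) :
    normSq (star a * q * a + star b * q * b) =
      (normSq a - normSq b) ^ 2 + 4 * ((b * star a).re ^ 2 + (q * b * star a).re ^ 2) := by
  obtain ⟨hq0, hq1⟩ := sq_neg_one hq
  have key : normSq (star a * q * a + star b * q * b) =
      (q.imI ^ 2 + q.imJ ^ 2 + q.imK ^ 2) *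
        ((normSq a - normSq b) ^ 2 + 4 * (b * star a).re ^ 2) +
      4 * (q * b * star a).re ^ 2 := by
    simp only [normSq_def', Quaternion.re_add, Quaternion.imI_add, Quaternion.imJ_add,
      Quaternion.imK_add, Quaternion.re_mul, Quaternion.imI_mul, Quaternion.imJ_mul,
      Quaternion.imK_mul, Quaternion.re_star, Quaternion.imI_star, Quaternion.imJ_star,
      Quaternion.imK_star, hq0]
    ring
  rw [key, hq1]
  ring

end quaternion

section involution

/-- The quaternion `i`. -/
def qi : H := ⟨0, 1, 0, 0⟩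
/-- The quaternion `j`. -/
def qj : H := ⟨0, 0, 1, 0⟩
/-- The quaternion `k`. -/
def qk : H := ⟨0, 0, 0, 1⟩

@[simp] theorem qi_re : qi.re = 0 := rfl
@[simp] theorem qi_imI : qi.imI = 1 := rfl
@[simp] theorem qi_imJ : qi.imJ = 0 := rfl
@[simp] theorem qi_imK : qi.imK = 0 := rfl
@[simp] theorem qj_re : qj.re = 0 := rfl
@[simp] theorem qj_imI : qj.imI = 0 := rfl
@[simp] theorem qj_imJ : qj.imJ = 1 := rfl
@[simp] theorem qj_imK : qj.imK = 0 := rfl
@[simp] theorem qk_re : qk.re = 0 := rfl
@[simp] theorem qk_imI : qk.imI = 0 := rfl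
@[simp] theorem qk_imJ : qk.imJ = 0 := rfl
@[simp] theorem qk_imK : qk.imK = 1 := rfl

theorem qi_sq : qi * qi = -1 := by ext <;> simp
theorem qj_sq : qj * qj = -1 := by ext <;> simp
theorem qk_sq : qk * qk = -1 := by ext <;> simp
theorem qi_qj : qi * qj = qk := by ext <;> simp
theorem qj_qi : qj * qi = -qk := by ext <;> simp

variable {φ : H →ₗ[ℝ] H} (hφ : IsNonstandard φ)

include hφ

theorem phi_one : φ 1 = 1 := by
  have h1 : φ 1 = φ 1 * φ 1 := by
    conv_lhs => rw [← mul_one (1 : H), hφ.1]
  have h2 : φ 1 ≠ 0 := by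
    intro h
    have := hφ.2.1 1
    rw [h, map_zero] at this
    exact zero_ne_one this
  exact (mul_eq_left₀ h2).1 h1.symm

theorem phi_coe (r : ℝ) : φ (r : H) = r := by
  have h : (r : H) = r • (1 : H) := by
    rw [← Quaternion.coe_mul_eq_smul, mul_one]
  rw [h, map_smul, phi_one hφ]

theorem phi_sq {p : H} (h : p * p = -1) : φ p * φ p = -1 := by
  rw [← hφ.1, h, map_neg, phi_one hφ]

/-- There is a pure unit `q` with `φ q = -q`. -/
theorem exists_q : ∃ q : H, q * q = -1 ∧ φ q = -q := by
  have key : ∃ y : H, y * y = -1 ∧ φ y ≠ y := by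
    by_contra hcon
    push Not at hcon
    have h1 := hcon _ qk_sq
    rw [← qi_qj, hφ.1, hcon _ qi_sq, hcon _ qj_sq, qj_qi, qi_qj] at h1
    have := congrArg QuaternionAlgebra.imK h1
    simp at this
    linarith
  obtain ⟨y, hy, hne⟩ := key
  have hre : (y - φ y).re = 0 := by
    rw [Quaternion.re_sub, (sq_neg_one hy).1, (sq_neg_one (phi_sq hφ hy)).1, sub_zero]
  obtain ⟨r, hr⟩ := normalise hre (sub_ne_zero.2 hne.symm)
  refine ⟨r • (y - φ y), hr, ?_⟩
  rw [map_smul, map_sub, hφ.2.1, ← smul_neg, neg_sub]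

/-- There is a pure unit `j` with `φ j = j`. -/
theorem exists_j : ∃ j : H, j * j = -1 ∧ φ j = j := by
  have key : ∃ y : H, y * y = -1 ∧ φ y ≠ -y := by
    by_contra hcon
    push Not at hcon
    obtain ⟨x, hx⟩ := hφ.2.2
    apply hx
    have hx' : x = (x.re : H) + x.imI • qi + x.imJ • qj + x.imK • qk := by
      ext <;> simp
    conv_lhs => rw [hx']
    simp only [map_add, map_smul, hcon _ qi_sq, hcon _ qj_sq, hcon _ qk_sq, phi_coe hφ]
    ext <;> simp
  obtain ⟨y, hy, hne⟩ := key
  have hre : (y + φ y).re = 0 := by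
    rw [Quaternion.re_add, (sq_neg_one hy).1, (sq_neg_one (phi_sq hφ hy)).1, add_zero]
  have hne' : y + φ y ≠ 0 := by
    intro h
    exact hne (by rw [eq_neg_iff_add_eq_zero, add_comm]; exact h)
  obtain ⟨r, hr⟩ := normalise hre hne'
  refine ⟨r • (y + φ y), hr, ?_⟩
  rw [map_smul, map_add, hφ.2.1, add_comm]

theorem anticomm {q j : H} (hq : q * q = -1) (hq' : φ q = -q) (hj : j * j = -1)
    (hj' : φ j = j) : q * j = -(j * q) := by
  obtain ⟨hq0, -⟩ := sq_neg_one hq
  obtain ⟨hj0, -⟩ := sq_neg_one hj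
  have h1 : q * j + j * q = ((-2 * (q.imI * j.imI + q.imJ * j.imJ + q.imK * j.imK) : ℝ) : H) := by
    ext
    · rw [Quaternion.re_add, Quaternion.re_mul, Quaternion.re_mul, Quaternion.re_coe, hq0, hj0]
      ring
    · rw [Quaternion.imI_add, Quaternion.imI_mul, Quaternion.imI_mul, Quaternion.imI_coe, hq0,
        hj0]
      ring
    · rw [Quaternion.imJ_add, Quaternion.imJ_mul, Quaternion.imJ_mul, Quaternion.imJ_coe, hq0,
        hj0]
      ring
    · rw [Quaternion.imK_add, Quaternion.imK_mul, Quaternion.imK_mul, Quaternion.imK_coe, hq0,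
        hj0]
      ring
  have h2 : φ (q * j + j * q) = -(q * j + j * q) := by
    rw [map_add, hφ.1, hφ.1, hq', hj']
    noncomm_ring
  rw [h1, phi_coe hφ] at h2
  have h3 : ((-2 * (q.imI * j.imI + q.imJ * j.imJ + q.imK * j.imK) : ℝ) : H) = 0 := by
    have h4 := congrArg QuaternionAlgebra.re h2
    rw [Quaternion.re_neg, Quaternion.re_coe] at h4
    have h5 : (-2 * (q.imI * j.imI + q.imJ * j.imJ + q.imK * j.imK) : ℝ) = 0 := by linarith
    rw [h5, Quaternion.coe_zero]
  rw [h3] at h1
  rw [eq_neg_iff_add_eq_zero]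
  exact h1

/-- `φ x = -q x^* q`. -/
theorem phi_formula {q : H} (hq : q * q = -1) (hq' : φ q = -q) (x : H) :
    φ x = -(q * star x * q) := by
  obtain ⟨j, hj, hj'⟩ := exists_j hφ
  have hqj := anticomm hφ hq hq' hj hj'
  have hstar : ∀ {p : H}, p * p = -1 → star p = -p := by
    intro p hp
    rw [Quaternion.star_eq_neg]
    exact (sq_neg_one hp).1
  -- the part of `x` commuting with `q` and the part anticommuting with `q`
  have hplus : ∃ s t : ℝ, (x - q * x * q) = (s : H) + t • q := by
    apply comm_rep hq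
    calc (x - q * x * q) * q = x * q - q * x * (q * q) := by noncomm_ring
      _ = x * q + q * x := by rw [hq]; noncomm_ring
      _ = q * x - (q * q) * x * q := by rw [hq]; noncomm_ring
      _ = q * (x - q * x * q) := by noncomm_ring
  have hminus : ∃ s t : ℝ, (x + q * x * q) * j = (s : H) + t • q := by
    apply comm_rep hq
    calc (x + q * x * q) * j * q = (x + q * x * q) * (-(q * j)) := by
          rw [hqj, neg_neg, mul_assoc]
      _ = -(x * q * j) - q * x * (q * q) * j := by noncomm_ring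
      _ = -(x * q * j) + q * x * j := by rw [hq]; noncomm_ring
      _ = q * x * j + (q * q) * x * q * j := by rw [hq]; noncomm_ring
      _ = q * ((x + q * x * q) * j) := by noncomm_ring
  obtain ⟨s, t, hst⟩ := hplus
  obtain ⟨s', t', hst'⟩ := hminus
  have hm : x + q * x * q = -(((s' : H) + t' • q) * j) := by
    rw [← hst', mul_assoc _ j j, hj]
    noncomm_ring
  have hx : (2 : ℝ) • x = ((s : H) + t • q) - ((s' : H) + t' • q) * j := by
    rw [← hst, sub_eq_add_neg, ← hm, two_smul]
    noncomm_ring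
  have hφx : (2 : ℝ) • φ x = ((s : H) - t • q) - j * ((s' : H) - t' • q) := by
    rw [← map_smul, hx, map_sub, hφ.1, map_add, map_add, map_smul, map_smul, phi_coe hφ,
      phi_coe hφ, hq', hj']
    simp only [smul_neg, sub_eq_add_neg]
  have hsx : (2 : ℝ) • star x = ((s : H) - t • q) + j * ((s' : H) - t' • q) := by
    have := congrArg star hx
    rw [Quaternion.star_smul, star_sub, star_mul, star_add, star_add, Quaternion.star_smul,
      Quaternion.star_smul, hstar hq,
      hstar hj, Quaternion.star_coe, Quaternion.star_coe] at this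
    rw [this]
    simp only [smul_neg, neg_mul, sub_eq_add_neg, neg_neg]
  have h2 : (2 : ℝ) • φ x = (2 : ℝ) • (-(q * star x * q)) := by
    rw [hφx]
    have : (2 : ℝ) • (-(q * star x * q)) = -(q * ((2 : ℝ) • star x) * q) := by
      rw [smul_neg, mul_smul_comm, smul_mul_assoc]
    rw [this, hsx]
    have e1 : ∀ r : ℝ, q * (r : H) = (r : H) * q := fun r => (Quaternion.coe_commutes r q).symm
    have e2 : ∀ r : ℝ, j * (r : H) = (r : H) * j := fun r => (Quaternion.coe_commutes r j).symm
    have a1 : q * (s : H) * q = -(s : H) := by rw [e1, mul_assoc, hq, mul_neg_one]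
    have a2 : q * (t • q) * q = -(t • q) := by
      rw [mul_smul_comm, hq, smul_mul_assoc, neg_one_mul, smul_neg]
    have a3 : q * (j * (s' : H)) * q = j * (s' : H) := by
      calc q * (j * (s' : H)) * q = (q * j) * ((s' : H) * q) := by noncomm_ring
        _ = -(j * q) * (q * (s' : H)) := by rw [hqj, e1]
        _ = -(j * (q * q) * (s' : H)) := by noncomm_ring
        _ = j * (s' : H) := by rw [hq]; noncomm_ring
    have a4 : q * (j * (t' • q)) * q = j * (t' • q) := by
      rw [mul_smul_comm, mul_smul_comm, smul_mul_assoc]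
      congr 1
      calc q * (j * q) * q = (q * j) * (q * q) := by noncomm_ring
        _ = j * q := by rw [hq, hqj]; noncomm_ring
    calc ((s : H) - t • q) - j * ((s' : H) - t' • q) =
        -(-(s : H) - -(t • q) + (j * (s' : H) - j * (t' • q))) := by noncomm_ring
      _ = -(q * (s : H) * q - q * (t • q) * q + (q * (j * (s' : H)) * q -
          q * (j * (t' • q)) * q)) := by rw [a1, a2, a3, a4]
      _ = -(q * ((s : H) - t • q + j * ((s' : H) - t' • q)) * q) := by noncomm_ring
  exact smul_right_injective H (two_ne_zero : (2 : ℝ) ≠ 0) h2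

theorem norm_phi (x : H) : ‖φ x‖ = ‖x‖ := by
  obtain ⟨q, hq, hq'⟩ := exists_q hφ
  have hn : ‖q‖ = 1 := by
    have := congrArg norm hq
    rw [norm_mul, norm_neg, norm_one] at this
    nlinarith [norm_nonneg q]
  rw [phi_formula hφ hq hq', norm_neg, norm_mul, norm_mul, hn, norm_star]
  ring

/-- Every nonzero fixed `α` is of the form `φ(λ) λ`. -/
theorem exists_root {α : H} (hα : φ α = α) (hα0 : α ≠ 0) : ∃ l : H, φ l * l = α := by
  have hpos : 0 < ‖α‖ := norm_pos_iff.2 hα0
  have hsq : α * α = (2 * α.re) • α - ((‖α‖ * ‖α‖ : ℝ) : H) := by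
    have h1 : α * star α = ((‖α‖ * ‖α‖ : ℝ) : H) := by
      rw [Quaternion.self_mul_star, Quaternion.normSq_eq_norm_mul_self]
    have h2 : α + star α = ((2 * α.re : ℝ) : H) := by
      rw [Quaternion.self_add_star']
    have h3 : α * (α + star α) = (2 * α.re) • α := by
      rw [h2, Quaternion.mul_coe_eq_smul]
    rw [mul_add, h1] at h3
    rw [← h3]
    noncomm_ring
  by_cases hc : α.re + ‖α‖ = 0
  · -- `α` is a negative real number
    obtain ⟨j, hj, hj'⟩ := exists_j hφ
    have hre : α.re = -‖α‖ := by linarith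
    have hn : ‖α‖ * ‖α‖ = α.re ^ 2 + α.imI ^ 2 + α.imJ ^ 2 + α.imK ^ 2 := by
      rw [← Quaternion.normSq_eq_norm_mul_self, Quaternion.normSq_def']
    have himz : α.imI = 0 ∧ α.imJ = 0 ∧ α.imK = 0 := by
      have h1 := sq_nonneg α.imI
      have h2 := sq_nonneg α.imJ
      have h3 := sq_nonneg α.imK
      rw [hre] at hn
      refine ⟨?_, ?_, ?_⟩ <;> apply pow_eq_zero_iff (two_ne_zero) |>.1 <;> nlinarith
    have hαr : α = ((-‖α‖ : ℝ) : H) := by
      ext
      · rw [Quaternion.re_coe, hre]
      · rw [Quaternion.imI_coe, himz.1]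
      · rw [Quaternion.imJ_coe, himz.2.1]
      · rw [Quaternion.imK_coe, himz.2.2]
    refine ⟨Real.sqrt ‖α‖ • j, ?_⟩
    rw [map_smul, hj', smul_mul_smul_comm, hj, Real.mul_self_sqrt hpos.le]
    conv_rhs => rw [hαr]
    rw [smul_neg, ← Quaternion.coe_mul_eq_smul, mul_one, Quaternion.coe_neg]
  · have hpos2 : 0 < 2 * (α.re + ‖α‖) := by
      have h1 : |α.re| ≤ ‖α‖ := by
        have h2 : α.re ^ 2 ≤ ‖α‖ ^ 2 := by
          rw [pow_two ‖α‖, ← Quaternion.normSq_eq_norm_mul_self, Quaternion.normSq_def']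
          nlinarith [sq_nonneg α.imI, sq_nonneg α.imJ, sq_nonneg α.imK]
        exact abs_le_of_sq_le_sq h2 hpos.le
      have h3 := (abs_le.1 h1).1
      rcases lt_or_eq_of_le h3 with h | h
      · linarith
      · exact absurd (by linarith) hc
    set r := (Real.sqrt (2 * (α.re + ‖α‖)))⁻¹ with hr
    have hrr : r * r = (2 * (α.re + ‖α‖))⁻¹ := by
      rw [hr, ← mul_inv, Real.mul_self_sqrt hpos2.le]
    refine ⟨r • (α + (‖α‖ : H)), ?_⟩
    rw [map_smul, map_add, hα, phi_coe hφ, smul_mul_smul_comm, hrr]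
    have h4 : (α + (‖α‖ : H)) * (α + (‖α‖ : H)) = (2 * (α.re + ‖α‖)) • α := by
      have h5 : (α + (‖α‖ : H)) * (α + (‖α‖ : H)) =
          α * α + ‖α‖ • α + ‖α‖ • α + ((‖α‖ * ‖α‖ : ℝ) : H) := by
        rw [mul_add, add_mul, add_mul, Quaternion.mul_coe_eq_smul, Quaternion.coe_mul_eq_smul,
          Quaternion.coe_mul]
        abel
      rw [h5, hsq]
      module
    rw [h4, smul_smul, inv_mul_cancel₀ hpos2.ne', one_smul]

end involution

section forms

variable {φ : H →ₗ[ℝ] H} {n : ℕ} (A : Matrix (Fin n) (Fin n) H)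

theorem bil_add_left (x x' y : Fin n → H) : bil φ A (x + x') y = bil φ A x y + bil φ A x' y := by
  simp only [bil, Pi.add_apply, map_add, add_mul, Finset.sum_add_distrib]

theorem bil_add_right (x y y' : Fin n → H) : bil φ A x (y + y') = bil φ A x y + bil φ A x y' := by
  simp only [bil, Pi.add_apply, mul_add, Finset.sum_add_distrib]

theorem bil_smul_left (r : ℝ) (x y : Fin n → H) : bil φ A (r • x) y = r • bil φ A x y := by
  simp only [bil, Pi.smul_apply, map_smul, smul_mul_assoc, Finset.smul_sum]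

theorem bil_smul_right (r : ℝ) (x y : Fin n → H) : bil φ A x (r • y) = r • bil φ A x y := by
  simp only [bil, Pi.smul_apply, mul_smul_comm, Finset.smul_sum]

theorem bil_single (k l : Fin n) (u v : H) :
    bil φ A (Pi.single k u) (Pi.single l v) = φ u * A k l * v := by
  unfold bil
  rw [Finset.sum_eq_single k, Finset.sum_eq_single l]
  · simp
  · intro b _ hb
    rw [Pi.single_eq_of_ne hb, mul_zero]
  · simp
  · intro b _ hb
    rw [Pi.single_eq_of_ne hb]
    simp
  · simp

theorem sq_eq_bil (x : Fin n → H) : sq φ x = bil φ 1 x x := by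
  unfold sq bil
  refine Finset.sum_congr rfl fun k _ => ?_
  rw [Finset.sum_eq_single k]
  · simp
  · intro b _ hb
    rw [Matrix.one_apply_ne hb.symm]
    simp
  · simp

theorem bil_mul_right (hφ : IsNonstandard φ) (l : H) (x : Fin n → H) :
    bil φ A (fun k => x k * l) (fun k => x k * l) = φ l * bil φ A x x * l := by
  simp only [bil, hφ.1, Finset.mul_sum, Finset.sum_mul, mul_assoc]

/-- The main tool: boundedness of the numerical range gives an identity. -/
theorem key (hφ : IsNonstandard φ) {α l : H} (hl : φ l * l = α) (hl0 : l ≠ 0)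
    (hb : Bornology.IsBounded (W φ α A)) (a b : Fin n → H) (ha : bil φ 1 a a = 1)
    (hb1 : bil φ 1 b b = -1) (hab : bil φ 1 a b + bil φ 1 b a = 0) :
    bil φ A a a + bil φ A b b + (bil φ A a b + bil φ A b a) = 0 := by
  obtain ⟨C, hC⟩ := hb.exists_norm_le
  have hl0' : 0 < ‖l‖ := norm_pos_iff.2 hl0
  set P := bil φ A a a + bil φ A b b + (bil φ A a b + bil φ A b a) with hP
  set Q := bil φ A a a + bil φ A b b - (bil φ A a b + bil φ A b a) with hQ
  set S := bil φ A a a - bil φ A b b with hS
  -- the test vectors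
  have expand : ∀ (M : Matrix (Fin n) (Fin n) H) (c s : ℝ),
      bil φ M (c • a + s • b) (c • a + s • b) =
        (c * c) • bil φ M a a + (s * s) • bil φ M b b +
          (c * s) • (bil φ M a b + bil φ M b a) := by
    intro M c s
    simp only [bil_add_left, bil_add_right, bil_smul_left, bil_smul_right]
    module
  have hbound : ∀ t : ℝ, 1 ≤ t → ‖(t ^ 2 / 4) • P‖ ≤ C / ‖l‖ ^ 2 + ‖Q‖ + ‖S‖ := by
    intro t ht
    have ht0 : t ≠ 0 := by positivity
    set c := (t + t⁻¹) / 2 with hc
    set s := (t - t⁻¹) / 2 with hs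
    have hcs : c * c - s * s = 1 := by
      rw [hc, hs]
      field_simp
      ring
    have hmem : bil φ A (fun k => (c • a + s • b) k * l) (fun k => (c • a + s • b) k * l) ∈
        W φ α A := by
      refine ⟨_, ?_, rfl⟩
      rw [sq_eq_bil, bil_mul_right _ hφ, expand, ha, hb1, hab, smul_zero, add_zero, smul_neg,
        ← sub_eq_add_neg, ← sub_smul, hcs, one_smul, mul_one, hl]
    have h1 := hC _ hmem
    rw [bil_mul_right _ hφ, norm_mul, norm_mul, norm_phi hφ, expand] at h1
    have h2 : (c * c) • bil φ A a a + (s * s) • bil φ A b b +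
        (c * s) • (bil φ A a b + bil φ A b a) =
        (t ^ 2 / 4) • P + (t⁻¹ ^ 2 / 4) • Q + (1 / 2 : ℝ) • S := by
      have e1 : c * c = t ^ 2 / 4 + t⁻¹ ^ 2 / 4 + 1 / 2 := by
        rw [hc]; field_simp; ring
      have e2 : s * s = t ^ 2 / 4 + t⁻¹ ^ 2 / 4 - 1 / 2 := by
        rw [hs]; field_simp; ring
      have e3 : c * s = t ^ 2 / 4 - t⁻¹ ^ 2 / 4 := by
        rw [hc, hs]; field_simp; ring
      rw [e1, e2, e3, hP, hQ, hS]
      module
    rw [h2] at h1
    set V := (t ^ 2 / 4) • P + (t⁻¹ ^ 2 / 4) • Q + (1 / 2 : ℝ) • S with hV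
    have h3 : ‖V‖ ≤ C / ‖l‖ ^ 2 := by
      rw [le_div_iff₀ (by positivity)]
      calc ‖V‖ * ‖l‖ ^ 2 = ‖l‖ * ‖V‖ * ‖l‖ := by ring
        _ ≤ C := h1
    have h4 : (t ^ 2 / 4) • P = V - (t⁻¹ ^ 2 / 4) • Q - (1 / 2 : ℝ) • S := by
      rw [hV]; module
    have htinv : t⁻¹ ^ 2 ≤ 1 := by
      rw [inv_pow]
      exact inv_le_one_of_one_le₀ (by nlinarith)
    calc ‖(t ^ 2 / 4) • P‖ = ‖V - (t⁻¹ ^ 2 / 4) • Q - (1 / 2 : ℝ) • S‖ := by rw [h4]
      _ ≤ ‖V‖ + ‖(t⁻¹ ^ 2 / 4) • Q‖ + ‖(1 / 2 : ℝ) • S‖ := by
          refine (norm_sub_le _ _).trans ?_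
          gcongr
          exact norm_sub_le _ _
      _ ≤ C / ‖l‖ ^ 2 + ‖Q‖ + ‖S‖ := by
          gcongr
          · rw [norm_smul, Real.norm_of_nonneg (by positivity)]
            nlinarith [norm_nonneg Q]
          · rw [norm_smul, Real.norm_of_nonneg (by positivity)]
            nlinarith [norm_nonneg S]
  by_contra hne
  have hPpos : 0 < ‖P‖ := norm_pos_iff.2 hne
  set D := C / ‖l‖ ^ 2 + ‖Q‖ + ‖S‖ with hD
  have hD0 : 0 ≤ D := (norm_nonneg _).trans (hbound 1 le_rfl)
  have h5 := hbound (1 + 4 * (D + 1) / ‖P‖) (by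
    have : 0 ≤ 4 * (D + 1) / ‖P‖ := by positivity
    linarith)
  rw [norm_smul, Real.norm_of_nonneg (by positivity)] at h5
  set u := 4 * (D + 1) / ‖P‖ with hu
  have hu0 : 0 ≤ u := by positivity
  have hu1 : u * ‖P‖ = 4 * (D + 1) := by
    rw [hu]; field_simp
  nlinarith

end forms

section necessity

variable {φ : H →ₗ[ℝ] H} {n : ℕ} {A : Matrix (Fin n) (Fin n) H}

theorem pair_rel (hφ : IsNonstandard φ) {α l₀ : H} (hl : φ l₀ * l₀ = α) (hl0 : l₀ ≠ 0)
    (hb : Bornology.IsBounded (W φ α A)) {k l : Fin n} (hkl : k ≠ l) {m : H} (hm : m * m = -1)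
    (hm' : φ m = m) : A k k = -(m * A l l * m) ∧ A k l * m = -(m * A l k) := by
  have main : ∀ m : H, m * m = -1 → φ m = m →
      A k k + m * A l l * m + (A k l * m + m * A l k) = 0 := by
    intro m hm hm'
    have h := key A hφ hl hl0 hb (Pi.single k 1) (Pi.single l m)
      (by rw [bil_single, phi_one hφ]; simp)
      (by rw [bil_single, hm']; simp [hm])
      (by rw [bil_single, bil_single, Matrix.one_apply_ne hkl, Matrix.one_apply_ne hkl.symm]
          simp)
    rw [bil_single, bil_single, bil_single, bil_single, phi_one hφ, hm'] at h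
    simpa using h
  have h1 := main m hm hm'
  have h2 := main (-m) (by simpa using hm) (by rw [map_neg, hm'])
  have h3 : A k k + m * A l l * m - (A k l * m + m * A l k) = 0 := by
    rw [← h2]; noncomm_ring
  constructor
  · have h4 : (2 : ℝ) • (A k k + m * A l l * m) = 0 := by
      rw [two_smul]
      calc _ = (A k k + m * A l l * m + (A k l * m + m * A l k)) +
            (A k k + m * A l l * m - (A k l * m + m * A l k)) := by abel
        _ = 0 := by rw [h1, h3, add_zero]
    rw [smul_eq_zero] at h4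
    exact eq_neg_of_add_eq_zero_left (h4.resolve_left two_ne_zero)
  · have h4 : (2 : ℝ) • (A k l * m + m * A l k) = 0 := by
      rw [two_smul]
      calc _ = (A k k + m * A l l * m + (A k l * m + m * A l k)) -
            (A k k + m * A l l * m - (A k l * m + m * A l k)) := by abel
        _ = 0 := by rw [h1, h3, sub_zero]
    rw [smul_eq_zero] at h4
    exact eq_neg_of_add_eq_zero_left (h4.resolve_left two_ne_zero)

theorem comm_of_eq {q j y : H} (hq : q * q = -1) (hj : j * j = -1) (hqj : q * j = -(j * q))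
    (h : j * y * j = (j * q) * y * (j * q)) : y * q = q * y := by
  have h1 : y * j = q * y * (j * q) := by
    have h2 : j * (j * y * j) = j * ((j * q) * y * (j * q)) := by rw [h]
    have h3 : j * (j * y * j) = (j * j) * (y * j) := by noncomm_ring
    have h4 : j * ((j * q) * y * (j * q)) = (j * j) * (q * y * (j * q)) := by noncomm_ring
    rw [h3, h4, hj] at h2
    simpa using h2
  have h5 : y = -(q * y * q) := by
    have h6 : (y * j) * j = (q * y * (j * q)) * j := by rw [h1]
    have h7 : (y * j) * j = -y := by rw [mul_assoc, hj]; simp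
    have h8 : (q * y * (j * q)) * j = q * y * q := by
      calc (q * y * (j * q)) * j = q * y * (j * (q * j)) := by noncomm_ring
        _ = -(q * y * ((j * j) * q)) := by rw [hqj]; noncomm_ring
        _ = q * y * q := by rw [hj]; noncomm_ring
    rw [h7, h8] at h6
    rw [← h6, neg_neg]
  calc y * q = -(q * q) * (y * q) := by rw [hq]; simp
    _ = q * (-(q * y * q)) := by noncomm_ring
    _ = q * y := by rw [← h5]

theorem conj_eq {q j y : H} (hq : q * q = -1) (hj : j * j = -1) (hqj : q * j = -(j * q))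
    (hy : y * q = q * y) : j * y * j = -star y := by
  obtain ⟨s, t, rfl⟩ := comm_rep hq hy
  have hstar : star q = -q := by
    rw [Quaternion.star_eq_neg]
    exact (sq_neg_one hq).1
  rw [star_add, Quaternion.star_smul, Quaternion.star_coe, hstar, mul_add, add_mul,
    ← Quaternion.coe_commutes, mul_assoc, hj, mul_smul_comm, smul_mul_assoc]
  have : j * q * j = q := by
    rw [mul_assoc, hqj]
    calc j * -(j * q) = -((j * j) * q) := by noncomm_ring
      _ = q := by rw [hj]; simp
  rw [this, mul_neg_one, smul_neg]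
  abel

theorem pair_final (hφ : IsNonstandard φ) {α l₀ : H} (hl : φ l₀ * l₀ = α) (hl0 : l₀ ≠ 0)
    (hb : Bornology.IsBounded (W φ α A)) {q j : H} (hq : q * q = -1) (hq' : φ q = -q)
    (hj : j * j = -1) (hj' : φ j = j) {k l : Fin n} (hkl : k ≠ l) :
    A l l * q = q * A l l ∧ A l k * q = q * A l k ∧ A k k = star (A l l) ∧
      A k l = -star (A l k) := by
  have hqj := anticomm hφ hq hq' hj hj'
  have hjq : (j * q) * (j * q) = -1 := by
    calc (j * q) * (j * q) = j * (q * j) * q := by noncomm_ring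
      _ = -((j * j) * (q * q)) := by rw [hqj]; noncomm_ring
      _ = -1 := by rw [hj, hq]; simp
  have hjq' : φ (j * q) = j * q := by
    rw [hφ.1, hq', hj', neg_mul, hqj, neg_neg]
  obtain ⟨a1, a2⟩ := pair_rel hφ hl hl0 hb hkl hj hj'
  obtain ⟨b1, b2⟩ := pair_rel hφ hl hl0 hb hkl hjq hjq'
  have a3 : A k l = j * A l k * j := by
    have h : (A k l * j) * j = -(j * A l k) * j := by rw [a2]
    rw [mul_assoc, hj, mul_neg_one, neg_mul] at h
    exact neg_injective h
  have b3 : A k l = (j * q) * A l k * (j * q) := by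
    have h : (A k l * (j * q)) * (j * q) = -((j * q) * A l k) * (j * q) := by rw [b2]
    rw [mul_assoc, hjq, mul_neg_one, neg_mul] at h
    exact neg_injective h
  have c1 : A l l * q = q * A l l :=
    comm_of_eq hq hj hqj (neg_injective (a1.symm.trans b1))
  have c2 : A l k * q = q * A l k := comm_of_eq hq hj hqj (a3.symm.trans b3)
  refine ⟨c1, c2, ?_, ?_⟩
  · rw [a1, conj_eq hq hj hqj c1, neg_neg]
  · rw [a3, conj_eq hq hj hqj c2]

theorem triple (hφ : IsNonstandard φ) {α l₀ : H} (hl : φ l₀ * l₀ = α) (hl0 : l₀ ≠ 0)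
    (hb : Bornology.IsBounded (W φ α A)) {j : H} (hj : j * j = -1) (hj' : φ j = j)
    {k l p : Fin n} (hkl : k ≠ l) (hkp : k ≠ p) (hlp : l ≠ p) {w : H} (hw : φ w * w = 1)
    {a : ℝ} (hk : A k k = a) (hll : A l l = a) (hp : A p p = a) :
    A k l * w + φ w * A l k = 0 := by
  obtain ⟨r, hs⟩ : ∃ r : ℝ, r * r = 1 / 2 := by
    refine ⟨1 / Real.sqrt 2, ?_⟩
    rw [div_mul_div_comm, Real.mul_self_sqrt (by norm_num)]
    norm_num
  have main : ∀ m : H, m * m = -1 → φ m = m →
      (1 / 2 : ℝ) • (A k k + A k l * w + φ w * A l k + φ w * A l l * w) + m * A p p * m +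
        (r • (A k p * m + φ w * A l p * m) +
          r • (m * A p k + m * A p l * w)) = 0 := by
    intro m hm hm'
    have h := key A hφ hl hl0 hb (r • (Pi.single k 1 + Pi.single l w))
      (Pi.single p m)
      (by
        simp only [bil_add_left, bil_add_right, bil_smul_left, bil_smul_right, bil_single,
          phi_one hφ, Matrix.one_apply_eq, Matrix.one_apply_ne hkl,
          Matrix.one_apply_ne hkl.symm, mul_one, mul_zero, zero_mul, hw, smul_add, smul_smul,
          hs, smul_zero, add_zero, zero_add]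
        rw [← add_smul]
        norm_num)
      (by rw [bil_single, hm']; simp [hm])
      (by
        simp only [bil_add_left, bil_add_right, bil_smul_left, bil_smul_right, bil_single,
          Matrix.one_apply_ne hkp, Matrix.one_apply_ne hlp, Matrix.one_apply_ne hkp.symm,
          Matrix.one_apply_ne hlp.symm, mul_zero, zero_mul, add_zero, smul_zero])
    simp only [bil_add_left, bil_add_right, bil_smul_left, bil_smul_right, bil_single,
      phi_one hφ, one_mul, mul_one, hm', smul_add, smul_smul, hs] at h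
    rw [← h]
    module
  have h1 := main j hj hj'
  have h2 := main (-j) (by simpa using hj) (by rw [map_neg, hj'])
  have h3 : (2 : ℝ) • ((1 / 2 : ℝ) • (A k k + A k l * w + φ w * A l k + φ w * A l l * w) +
      j * A p p * j) = 0 := by
    have e1 : -j * A p p * -j = j * A p p * j := by noncomm_ring
    have e2 : A k p * -j + φ w * A l p * -j = -(A k p * j + φ w * A l p * j) := by noncomm_ring
    have e3 : -j * A p k + -j * A p l * w = -(j * A p k + j * A p l * w) := by noncomm_ring
    rw [e1, e2, e3, smul_neg, smul_neg] at h2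
    have := congrArg₂ (· + ·) h1 h2
    simp only [add_zero] at this
    rw [← this]
    module
  rw [smul_eq_zero] at h3
  have h4 := h3.resolve_left two_ne_zero
  have e4 : φ w * A l l * w = (a : H) := by
    rw [hll, ← Quaternion.coe_commutes, mul_assoc, hw, mul_one]
  have e5 : j * A p p * j = -(a : H) := by
    rw [hp, ← Quaternion.coe_commutes, mul_assoc, hj, mul_neg_one]
  rw [e4, e5, hk] at h4
  have h5 : (1 / 2 : ℝ) • (A k l * w + φ w * A l k) = 0 := by
    rw [← h4]
    module
  rw [smul_eq_zero] at h5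
  exact h5.resolve_left (by norm_num)

end necessity

section sufficiency

variable {φ : H →ₗ[ℝ] H}

theorem bounded_one (hφ : IsNonstandard φ) {α : H} (A : Matrix (Fin 1) (Fin 1) H) :
    Bornology.IsBounded (W φ α A) := by
  rw [isBounded_iff_forall_norm_le]
  refine ⟨‖α‖ * ‖A 0 0‖, ?_⟩
  rintro _ ⟨x, hx, rfl⟩
  have h1 : ‖x 0‖ * ‖x 0‖ = ‖α‖ := by
    rw [← hx]
    simp [sq, norm_phi hφ]
  have h2 : ‖bil φ A x x‖ = ‖x 0‖ * ‖x 0‖ * ‖A 0 0‖ := by
    simp [bil, norm_phi hφ]
    ring
  rw [h2, h1]

theorem bounded_scalar {n : ℕ} {α : H} (a : ℝ) :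
    Bornology.IsBounded (W φ α (a • (1 : Matrix (Fin n) (Fin n) H))) := by
  rw [isBounded_iff_forall_norm_le]
  refine ⟨‖a • α‖, ?_⟩
  rintro _ ⟨x, hx, rfl⟩
  have h : bil φ (a • (1 : Matrix (Fin n) (Fin n) H)) x x = a • bil φ 1 x x := by
    simp only [bil, Matrix.smul_apply, mul_smul_comm, smul_mul_assoc, Finset.smul_sum]
  rw [h, ← sq_eq_bil, hx]

theorem bounded_two (hφ : IsNonstandard φ) {α q : H} (hq : q * q = -1) (hq' : φ q = -q)
    {c d : H} (hc : c * q = q * c) (hd : d * q = q * d) :
    Bornology.IsBounded (W φ α !![star c, d; -star d, c]) := by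
  obtain ⟨c0, c1, rfl⟩ := comm_rep hq hc
  obtain ⟨d0, d1, rfl⟩ := comm_rep hq hd
  rw [isBounded_iff_forall_norm_le]
  refine ⟨|c0| * ‖α‖ + |c1| * ‖α‖ + |d0| * ‖α‖ + |d1| * ‖α‖, ?_⟩
  rintro _ ⟨x, hx, rfl⟩
  have hn : ‖q‖ = 1 := by
    have := congrArg norm hq
    rw [norm_mul, norm_neg, norm_one] at this
    nlinarith [norm_nonneg q]
  have hstar : star q = -q := by
    rw [Quaternion.star_eq_neg]
    exact (sq_neg_one hq).1
  set a := x 0 with ha
  set b := x 1 with hb
  have hx' : star a * q * a + star b * q * b = q * α := by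
    rw [← hx, sq, Fin.sum_univ_two, ← ha, ← hb, phi_formula hφ hq hq', phi_formula hφ hq hq']
    calc star a * q * a + star b * q * b
        = -(q * q) * (star a * q * a) + -(q * q) * (star b * q * b) := by rw [hq]; simp
      _ = q * (-(q * star a * q) * a + -(q * star b * q) * b) := by noncomm_ring
  -- the identity for the norm
  have hid := normSq_identity hq a b
  rw [hx', map_mul, Quaternion.normSq_eq_norm_mul_self q, hn, Quaternion.normSq_eq_norm_mul_self α,
    one_mul, one_mul] at hid
  have hα0 := norm_nonneg α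
  have b1 : |Quaternion.normSq a - Quaternion.normSq b| ≤ ‖α‖ := by
    apply abs_le_of_sq_le_sq _ hα0
    nlinarith [sq_nonneg (b * star a).re, sq_nonneg (q * b * star a).re]
  have b2 : |2 * (b * star a).re| ≤ ‖α‖ := by
    apply abs_le_of_sq_le_sq _ hα0
    nlinarith [sq_nonneg (Quaternion.normSq a - Quaternion.normSq b),
      sq_nonneg (q * b * star a).re]
  have b3 : |2 * (q * b * star a).re| ≤ ‖α‖ := by
    apply abs_le_of_sq_le_sq _ hα0
    nlinarith [sq_nonneg (Quaternion.normSq a - Quaternion.normSq b),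
      sq_nonneg (b * star a).re]
  -- the formula for the form
  have r1 : star a * b + star b * a = ((2 * (b * star a).re : ℝ) : H) := by
    have e := Quaternion.self_add_star' (star a * b)
    rw [star_mul, star_star] at e
    rw [e]
    congr 2
    simp only [Quaternion.re_mul, Quaternion.re_star, Quaternion.imI_star, Quaternion.imJ_star,
      Quaternion.imK_star]
    ring
  have r2 : star a * q * b - star b * q * a = ((2 * (q * b * star a).re : ℝ) : H) := by
    have e := Quaternion.self_add_star' (star a * q * b)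
    rw [star_mul, star_mul, star_star, hstar] at e
    have e' : star b * (-q * a) = -(star b * q * a) := by noncomm_ring
    rw [e', ← sub_eq_add_neg] at e
    rw [e]
    congr 2
    simp only [Quaternion.re_mul, Quaternion.imI_mul, Quaternion.imJ_mul, Quaternion.imK_mul,
      Quaternion.re_star, Quaternion.imI_star, Quaternion.imJ_star, Quaternion.imK_star]
    ring
  have n1 : star a * a = ((Quaternion.normSq a : ℝ) : H) := Quaternion.star_mul_self _
  have n2 : star b * b = ((Quaternion.normSq b : ℝ) : H) := Quaternion.star_mul_self _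
  have hform : bil φ !![star ((c0 : H) + c1 • q), (d0 : H) + d1 • q;
      -star ((d0 : H) + d1 • q), (c0 : H) + c1 • q] x x =
      -(q * (c0 • (q * α) + c1 • (((Quaternion.normSq a - Quaternion.normSq b : ℝ)) : H) +
        d0 • ((2 * (q * b * star a).re : ℝ) : H) - d1 • ((2 * (b * star a).re : ℝ) : H))) := by
    rw [← r1, ← r2, ← hx', Quaternion.coe_sub, ← n1, ← n2]
    unfold bil
    rw [Fin.sum_univ_two, Fin.sum_univ_two, Fin.sum_univ_two, ← ha, ← hb,
      phi_formula hφ hq hq' a, phi_formula hφ hq hq' b]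
    simp only [Matrix.of_apply, Matrix.cons_val_zero, Matrix.cons_val_one, Matrix.cons_val',
      Matrix.cons_val_fin_one]
    rw [star_add, star_add, Quaternion.star_smul, Quaternion.star_smul, Quaternion.star_coe,
      Quaternion.star_coe, hstar]
    have g1 : ∀ (u v : H) (r s : ℝ), -(q * star u * q) * ((r : H) + s • q) * v =
        -(q * (r • (star u * q * v) - s • (star u * v))) := by
      intro u v r s
      have : (r : H) = r • (1 : H) := by rw [← Quaternion.coe_mul_eq_smul, mul_one]
      rw [this, mul_add, mul_smul_comm, mul_smul_comm, mul_one, add_mul, smul_mul_assoc,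
        smul_mul_assoc, mul_sub, mul_smul_comm, mul_smul_comm]
      have e : -(q * star u * q) * q * v = q * (star u * v) := by
        calc -(q * star u * q) * q * v = -(q * star u * (q * q) * v) := by noncomm_ring
          _ = q * (star u * v) := by rw [hq]; noncomm_ring
      have e' : -(q * star u * q) * v = -(q * (star u * q * v)) := by noncomm_ring
      rw [e, e', smul_neg]
      abel
    have g2 : ∀ (u v : H) (r s : ℝ), -(q * star u * q) * ((r : H) + s • -q) * v =
        -(q * (r • (star u * q * v) + s • (star u * v))) := by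
      intro u v r s
      have := g1 u v r (-s)
      rw [neg_smul, neg_smul, sub_neg_eq_add] at this
      rw [smul_neg]
      exact this
    have g3 : ∀ (u v : H) (r s : ℝ), -(q * star u * q) * -((r : H) + s • -q) * v =
        q * (r • (star u * q * v) + s • (star u * v)) := by
      intro u v r s
      rw [mul_neg, neg_mul, g2, neg_neg]
    rw [g1, g2, g3, g1]
    simp only [mul_add, mul_sub, smul_add, smul_sub, mul_smul_comm]
    module
  rw [hform, norm_neg, norm_mul, hn, one_mul]
  calc _ ≤ ‖c0 • (q * α)‖ + ‖c1 • (((Quaternion.normSq a - Quaternion.normSq b : ℝ)) : H)‖ +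
        ‖d0 • ((2 * (q * b * star a).re : ℝ) : H)‖ + ‖d1 • ((2 * (b * star a).re : ℝ) : H)‖ := by
        refine (norm_sub_le _ _).trans ?_
        gcongr
        refine (norm_add_le _ _).trans ?_
        gcongr
        exact norm_add_le _ _
    _ ≤ _ := by
        rw [norm_smul, norm_smul, norm_smul, norm_smul, norm_mul, hn, one_mul,
          Quaternion.norm_coe, Quaternion.norm_coe, Quaternion.norm_coe]
        simp only [Real.norm_eq_abs]
        gcongr

end sufficiency

/-- Let `φ` be a nonstandard involution of the quaternions and `α` a nonzero quaternion fixed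
by `φ`.  There is a unit `q` with `q² = -1` and `φ(q) = -q`, and for every such `q`:
(1) for `n = 1` every `W_φ^(α)(A)` is bounded;
(2) for `n = 2`, `W_φ^(α)(A)` is bounded if and only if `A = [[c*, d], [-d*, c]]` for some `c, d`
commuting with `q`;
(3) for `n ≥ 3`, `W_φ^(α)(A)` is bounded if and only if `A = a I` for a real number `a`. -/
theorem result (φ : H →ₗ[ℝ] H) (hφ : IsNonstandard φ) (α : H) (hα : φ α = α) (hα0 : α ≠ 0) :
    (∃ q : H, q * q = -1 ∧ φ q = -q) ∧
    ∀ q : H, q * q = -1 → φ q = -q →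
      (∀ A : Matrix (Fin 1) (Fin 1) H, Bornology.IsBounded (W φ α A)) ∧
      (∀ A : Matrix (Fin 2) (Fin 2) H, Bornology.IsBounded (W φ α A) ↔
        ∃ c d : H, c * q = q * c ∧ d * q = q * d ∧ A = !![star c, d; -star d, c]) ∧
      (∀ n : ℕ, 3 ≤ n → ∀ A : Matrix (Fin n) (Fin n) H, Bornology.IsBounded (W φ α A) ↔
        ∃ a : ℝ, A = a • (1 : Matrix (Fin n) (Fin n) H)) := by
  refine ⟨exists_q hφ, fun q hq hq' => ⟨fun A => bounded_one hφ A, fun A => ⟨fun hb => ?_, ?_⟩,
    fun n hn A => ⟨fun hb => ?_, ?_⟩⟩⟩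
  · obtain ⟨l₀, hl⟩ := exists_root hφ hα hα0
    have hl0 : l₀ ≠ 0 := by
      rintro rfl
      apply hα0
      rw [← hl, mul_zero]
    obtain ⟨j, hj, hj'⟩ := exists_j hφ
    obtain ⟨h1, -, h3, -⟩ := pair_final hφ hl hl0 hb hq hq' hj hj'
      (k := 0) (l := 1) (by decide)
    obtain ⟨-, g2, -, g4⟩ := pair_final hφ hl hl0 hb hq hq' hj hj'
      (k := 1) (l := 0) (by decide)
    refine ⟨A 1 1, A 0 1, h1, g2, ?_⟩
    ext1 i j
    fin_cases i <;> fin_cases j <;> simp [h3, g4]
  · rintro ⟨c, d, hc, hd, rfl⟩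
    exact bounded_two hφ hq hq' hc hd
  · obtain ⟨l₀, hl⟩ := exists_root hφ hα hα0
    have hl0 : l₀ ≠ 0 := by
      rintro rfl
      apply hα0
      rw [← hl, mul_zero]
    obtain ⟨j, hj, hj'⟩ := exists_j hφ
    have P := fun (k l : Fin n) (hkl : k ≠ l) =>
      pair_final hφ hl hl0 hb hq hq' hj hj' hkl
    have hthird : ∀ k l : Fin n, ∃ p : Fin n, k ≠ p ∧ l ≠ p := by
      intro k l
      have hcard : ({k, l} : Finset (Fin n)).card < (Finset.univ : Finset (Fin n)).card := by
        rw [Finset.card_univ, Fintype.card_fin]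
        exact lt_of_le_of_lt Finset.card_le_two (by omega)
      obtain ⟨p, -, hp⟩ := Finset.exists_mem_notMem_of_card_lt_card hcard
      simp only [Finset.mem_insert, Finset.mem_singleton, not_or] at hp
      exact ⟨p, fun h => hp.1 h.symm, fun h => hp.2 h.symm⟩
    have hdiag : ∀ k l : Fin n, k ≠ l → A k k = A l l := by
      intro k l hkl
      obtain ⟨p, hkp, hlp⟩ := hthird k l
      rw [(P k p hkp).2.2.1, (P l p hlp).2.2.1]
    have hreal : ∀ k : Fin n, ∃ a : ℝ, A k k = a := by
      intro k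
      obtain ⟨l, hkl, -⟩ := hthird k k
      have h1 := (P k l hkl).2.2.1
      rw [← hdiag k l hkl] at h1
      refine ⟨(A k k).re, ?_⟩
      exact Quaternion.star_eq_self.1 h1.symm
    obtain ⟨a, ha⟩ := hreal ⟨0, by omega⟩
    have hall : ∀ k : Fin n, A k k = a := by
      intro k
      by_cases hk : k = ⟨0, by omega⟩
      · rw [hk, ha]
      · rw [hdiag _ _ hk, ha]
    refine ⟨a, ?_⟩
    ext1 k l
    by_cases hkl : k = l
    · subst hkl
      rw [hall k, Matrix.smul_apply, Matrix.one_apply_eq, ← Quaternion.coe_mul_eq_smul, mul_one]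
    · rw [Matrix.smul_apply, Matrix.one_apply_ne hkl, smul_zero]
      obtain ⟨p, hkp, hlp⟩ := hthird k l
      have e1 := triple hφ hl hl0 hb hj hj' hkl hkp hlp (w := 1) (by rw [phi_one hφ, one_mul])
        (hall k) (hall l) (hall p)
      have e2 := triple hφ hl hl0 hb hj hj' hkl hkp hlp (w := q) (by
        rw [hq', neg_mul, hq, neg_neg]) (hall k) (hall l) (hall p)
      rw [phi_one hφ, mul_one, one_mul] at e1
      rw [hq', neg_mul, ← (P k l hkl).2.1, ← sub_eq_add_neg, ← sub_mul] at e2
      have hq0 : q ≠ 0 := by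
        rintro rfl
        rw [mul_zero] at hq
        have := congrArg QuaternionAlgebra.re hq
        simp at this
      have e3 := (mul_eq_zero.1 e2).resolve_right hq0
      have e4 : (2 : ℝ) • A k l = 0 := by
        rw [two_smul]
        calc A k l + A k l = (A k l + A l k) + (A k l - A l k) := by abel
          _ = 0 := by rw [e1, e3, add_zero]
      rw [smul_eq_zero] at e4
      exact e4.resolve_left two_ne_zero
  · rintro ⟨a, rfl⟩
    exact bounded_scalar a

end Pool.Agent.Results.MP_dceaed_al.BoundedRanges
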